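import Pool.Agent.Helper6.W.Defs

/-!
# Packet W3: combination of the counts of points crossing some edge once and of the others
-/

set_option autoImplicit false

namespace Pool.Agent.Helper38.W

open Equiv Finset Pool.Agent.Helper6.W

/-- greedy choice of pairwise unrelated tuples -/
theorem greedy {α : Type*} [Fintype α] [DecidableEq α] (S : Finset α) (R : α → α → Prop)
    (hsymm : ∀ a b, R a b → R b a) (D : ℕ)
    (hD : ∀ b, Nat.card {a // R a b} ≤ D) (f : ℕ) :
    (S.card - f * D) ^ f ≤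
      Nat.card {ps : Fin f → α // (∀ i, ps i ∈ S) ∧ ∀ i j, i ≠ j → ¬ R (ps i) (ps j)} := by
  classical
  induction f with
  | zero =>
    simp only [Nat.zero_mul, Nat.sub_zero, pow_zero]
    have : Nonempty {ps : Fin 0 → α // (∀ i, ps i ∈ S) ∧ ∀ i j, i ≠ j → ¬ R (ps i) (ps j)} :=
      ⟨⟨Fin.elim0, fun i => i.elim0, fun i => i.elim0⟩⟩
    exact Nat.card_pos
  | succ f ih =>
    set A := {ps : Fin f → α // (∀ i, ps i ∈ S) ∧ ∀ i j, i ≠ j → ¬ R (ps i) (ps j)} with hA
    set B := {ps : Fin (f + 1) → α // (∀ i, ps i ∈ S) ∧ ∀ i j, i ≠ j → ¬ R (ps i) (ps j)} with hB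
    -- extension of a good tuple
    have hext : ∀ ps : A, S.card - f * D ≤
        (S.filter fun a => ∀ i, ¬ R a (ps.1 i)).card := by
      intro ps
      have h1 : S ⊆ (S.filter fun a => ∀ i, ¬ R a (ps.1 i)) ∪
          (univ : Finset (Fin f)).biUnion fun i => univ.filter fun a => R a (ps.1 i) := by
        intro a ha
        by_cases h : ∀ i, ¬ R a (ps.1 i)
        · exact mem_union_left _ (mem_filter.2 ⟨ha, h⟩)
        · push Not at h
          obtain ⟨i, hi⟩ := h
          exact mem_union_right _ (mem_biUnion.2 ⟨i, mem_univ _, mem_filter.2 ⟨mem_univ _, hi⟩⟩)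
      have h2 : ((univ : Finset (Fin f)).biUnion fun i => univ.filter fun a => R a (ps.1 i)).card ≤
          f * D := by
        refine (card_biUnion_le).trans ?_
        calc ∑ i : Fin f, (univ.filter fun a => R a (ps.1 i)).card ≤ ∑ _i : Fin f, D := by
              refine sum_le_sum fun i _ => ?_
              have := hD (ps.1 i)
              rwa [Nat.card_eq_fintype_card, Fintype.card_subtype] at this
          _ = f * D := by simp
      have h3 := (card_le_card h1).trans (card_union_le _ _)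
      omega
    have hcard : Nat.card A * (S.card - f * D) ≤ Nat.card B := by
      have h1 : Nat.card (Σ ps : A, {a : α // a ∈ S.filter fun a => ∀ i, ¬ R a (ps.1 i)}) ≤
          Nat.card B := by
        refine Nat.card_le_card_of_injective
          (fun x => (⟨Fin.cons x.2.1 x.1.1, ?_, ?_⟩ : B)) ?_
        · intro i
          refine Fin.cases ?_ (fun i => ?_) i
          · simpa using (mem_filter.1 x.2.2).1
          · simpa using x.1.2.1 i
        · intro i j
          refine Fin.cases ?_ (fun i => ?_) i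
          · refine Fin.cases ?_ (fun j => ?_) j
            · intro h; exact absurd rfl h
            · intro _
              simpa using (mem_filter.1 x.2.2).2 j
          · refine Fin.cases ?_ (fun j => ?_) j
            · intro _ hR
              exact (mem_filter.1 x.2.2).2 i (hsymm _ _ (by simpa using hR))
            · intro hij
              have : i ≠ j := fun h => hij (by rw [h])
              simpa using x.1.2.2 i j this
        · rintro ⟨⟨ps, hps⟩, ⟨a, ha⟩⟩ ⟨⟨ps', hps'⟩, ⟨a', ha'⟩⟩ h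
          have h1 := congrArg Subtype.val h
          simp only at h1
          have h2 : a = a' := by simpa using congrFun h1 0
          have h3 : ps = ps' := by
            funext i
            simpa using congrFun h1 i.succ
          subst h2 h3
          rfl
      refine le_trans ?_ h1
      rw [Nat.card_eq_fintype_card, Nat.card_eq_fintype_card, Fintype.card_sigma]
      calc Fintype.card A * (S.card - f * D) = ∑ _ps : A, (S.card - f * D) := by simp
        _ ≤ _ := by
          refine sum_le_sum fun ps _ => ?_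
          rw [Fintype.card_coe]
          exact hext ps
    calc (S.card - (f + 1) * D) ^ (f + 1) ≤ (S.card - f * D) ^ (f + 1) := by
          refine Nat.pow_le_pow_left ?_ _
          have : f * D ≤ (f + 1) * D := Nat.mul_le_mul_right _ (Nat.le_succ _)
          omega
      _ = (S.card - f * D) ^ f * (S.card - f * D) := pow_succ _ _
      _ ≤ Nat.card A * (S.card - f * D) := Nat.mul_le_mul_right _ ih
      _ ≤ Nat.card B := hcard

variable {n : ℕ}

theorem apart_symm {y : Perm (Fin n)} {Z : ℕ → Perm (Fin n)} {T : ℕ} {p q : Fin n}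
    (h : Apart y Z T p q) : Apart y Z T q p :=
  fun t ht t' ht' => (h t' ht' t ht).symm

theorem card_not_apart (y : Perm (Fin n)) (Z : ℕ → Perm (Fin n)) (T : ℕ) (b : Fin n) :
    Nat.card {a // ¬ Apart y Z T a b} ≤ T * T := by
  classical
  rw [Nat.card_eq_fintype_card, Fintype.card_subtype]
  have h : (univ.filter fun a => ¬ Apart y Z T a b) ⊆
      (range T ×ˢ range T).image fun s => (lab y Z s.1)⁻¹ (lab y Z s.2 b) := by
    intro a ha
    rw [mem_filter] at ha
    have h1 := ha.2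
    unfold Apart at h1
    push Not at h1
    obtain ⟨t, ht, t', ht', h2⟩ := h1
    refine mem_image.2 ⟨(t, t'), mem_product.2 ⟨mem_range.2 ht, mem_range.2 ht'⟩, ?_⟩
    simp only
    rw [← h2]
    exact Equiv.symm_apply_apply _ _
  calc _ ≤ _ := card_le_card h
    _ ≤ (range T ×ˢ range T).card := card_image_le
    _ = T * T := by simp

/-- the points of the first kind -/
noncomputable def S1 (y : Perm (Fin n)) (Z : ℕ → Perm (Fin n)) (T : ℕ) : Finset (Fin n) :=
  open Classical in univ.filter fun p => pos y Z T p = p ∧ Once y Z T p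

/-- the points of the second kind -/
noncomputable def S2 (y : Perm (Fin n)) (Z : ℕ → Perm (Fin n)) (T : ℕ) : Finset (Fin n) :=
  open Classical in univ.filter fun p => ¬ Once y Z T p

theorem fixc_le (y : Perm (Fin n)) (Z : ℕ → Perm (Fin n)) (T : ℕ) :
    Pool.Agent.Helper15.An.fixc (pos y Z T) ≤ (S1 y Z T).card + (S2 y Z T).card := by
  classical
  unfold Pool.Agent.Helper15.An.fixc S1 S2
  refine (card_le_card ?_).trans (card_union_le _ _)
  intro p hp
  rw [mem_filter] at hp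
  by_cases h : Once y Z T p
  · exact mem_union_left _ (mem_filter.2 ⟨mem_univ _, hp.2, h⟩)
  · exact mem_union_right _ (mem_filter.2 ⟨mem_univ _, h⟩)

/-- number of injective tuples inside a set -/
theorem card_emb_le (S : Finset (Fin n)) (m : ℕ) :
    (S.card + 1 - m) ^ m ≤ Nat.card {ps : Fin m ↪ Fin n // ∀ i, ps i ∈ S} := by
  classical
  have h1 : Nat.card (Fin m ↪ {a // a ∈ S}) ≤ Nat.card {ps : Fin m ↪ Fin n // ∀ i, ps i ∈ S} := by
    refine Nat.card_le_card_of_injective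
      (fun ps => ⟨ps.trans (Function.Embedding.subtype _), fun i => (ps i).2⟩) ?_
    intro ps ps' h
    have h1 := congrArg Subtype.val h
    ext i
    have h2 := DFunLike.congr_fun h1 i
    simpa using congrArg Fin.val h2
  refine le_trans ?_ h1
  rw [Nat.card_eq_fintype_card, Fintype.card_embedding_eq, Fintype.card_coe, Fintype.card_fin]
  exact Nat.pow_sub_le_descFactorial _ _

theorem sum_w {T : ℕ} {κ : Perm (Fin n) → ℝ} (h : ∑ g, κ g = 1) :
    ∑ Z : Fin T → Perm (Fin n), ∏ t, κ (Z t) = 1 := by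
  classical
  have := Finset.prod_univ_sum (fun _ : Fin T => (univ : Finset (Perm (Fin n)))) (fun _ g => κ g)
  rw [Fintype.piFinset_univ] at this
  rw [← this]
  simp [h]

/-- first part: for fixed letters few `y` have many points of the first kind -/
theorem part1
    (H1 : ∀ (Z : ℕ → Perm (Fin n)) (T f : ℕ) (ps : Fin f → Fin n), f * T ≤ n →
      Nat.card {y : Perm (Fin n) // (∀ i, pos y Z T (ps i) = ps i) ∧
        (∀ i j, i ≠ j → Apart y Z T (ps i) (ps j)) ∧ ∀ i, Once y Z T (ps i)} *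
        (n - f * T) ^ f ≤ T ^ f * n.factorial)
    (Z : ℕ → Perm (Fin n)) (q f F : ℕ) (hn : 0 < n) (hF : 0 < F) (hfF : 16 * (f * q ^ 2) ≤ F)
    (hfn : 4 * (f * q) ≤ n) :
    (Nat.card {y : Perm (Fin n) // F ≤ 2 * (S1 y Z (2 * q)).card} : ℝ) ≤
      (n.factorial : ℝ) * (16 * q / F : ℝ) ^ f := by
  classical
  set T := 2 * q with hT
  have hfT : f * T ≤ n := by
    have : f * T = 2 * (f * q) := by rw [hT]; ring
    omega
  -- double counting
  have hdc : Nat.card {y : Perm (Fin n) // F ≤ 2 * (S1 y Z T).card} * (F : ℝ) ^ f ≤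
      4 ^ f * ∑ ps : Fin f → Fin n, (Nat.card {y : Perm (Fin n) // (∀ i, pos y Z T (ps i) = ps i) ∧
        (∀ i j, i ≠ j → Apart y Z T (ps i) (ps j)) ∧ ∀ i, Once y Z T (ps i)} : ℝ) := by
    have h1 : ∀ y : Perm (Fin n), F ≤ 2 * (S1 y Z T).card →
        (F : ℝ) ^ f ≤ 4 ^ f * (Nat.card {ps : Fin f → Fin n // (∀ i, pos y Z T (ps i) = ps i) ∧
        (∀ i j, i ≠ j → Apart y Z T (ps i) (ps j)) ∧ ∀ i, Once y Z T (ps i)} : ℝ) := by
      intro y hy
      have h2 := greedy (S1 y Z T) (fun a b => ¬ Apart y Z T a b)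
        (fun a b h h' => h (apart_symm h')) (T * T) (card_not_apart y Z T) f
      have h3 : Nat.card {ps : Fin f → Fin n // (∀ i, ps i ∈ S1 y Z T) ∧
          ∀ i j, i ≠ j → ¬ ¬ Apart y Z T (ps i) (ps j)} ≤
          Nat.card {ps : Fin f → Fin n // (∀ i, pos y Z T (ps i) = ps i) ∧
          (∀ i j, i ≠ j → Apart y Z T (ps i) (ps j)) ∧ ∀ i, Once y Z T (ps i)} := by
        refine Nat.card_le_card_of_injective (fun x => ⟨x.1, ?_, ?_, ?_⟩) ?_
        · intro i
          have := x.2.1 i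
          unfold S1 at this
          exact (mem_filter.1 this).2.1
        · intro i j hij
          exact not_not.1 (x.2.2 i j hij)
        · intro i
          have := x.2.1 i
          unfold S1 at this
          exact (mem_filter.1 this).2.2
        · intro x x' h
          have h' := congrArg Subtype.val h
          exact Subtype.ext h'
      have h4 : F ≤ 4 * ((S1 y Z T).card - f * (T * T)) := by
        have : f * (T * T) = 4 * (f * q ^ 2) := by rw [hT]; ring
        omega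
      have h5 : (F : ℝ) ≤ 4 * (((S1 y Z T).card - f * (T * T) : ℕ) : ℝ) := by exact_mod_cast h4
      calc (F : ℝ) ^ f ≤ (4 * (((S1 y Z T).card - f * (T * T) : ℕ) : ℝ)) ^ f :=
            pow_le_pow_left₀ (Nat.cast_nonneg _) h5 f
        _ = 4 ^ f * (((S1 y Z T).card - f * (T * T) : ℕ) : ℝ) ^ f := mul_pow _ _ _
        _ ≤ _ := by
          refine mul_le_mul_of_nonneg_left ?_ (by positivity)
          exact_mod_cast h2.trans h3
    -- swap the order
    have h6 : ∑ ps : Fin f → Fin n, (Nat.card {y : Perm (Fin n) // (∀ i, pos y Z T (ps i) = ps i) ∧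
        (∀ i j, i ≠ j → Apart y Z T (ps i) (ps j)) ∧ ∀ i, Once y Z T (ps i)} : ℝ) =
        ∑ y : Perm (Fin n), (Nat.card {ps : Fin f → Fin n // (∀ i, pos y Z T (ps i) = ps i) ∧
        (∀ i j, i ≠ j → Apart y Z T (ps i) (ps j)) ∧ ∀ i, Once y Z T (ps i)} : ℝ) := by
      simp only [Nat.card_eq_fintype_card, Fintype.card_subtype, card_filter, Nat.cast_sum]
      exact sum_comm
    rw [h6, mul_sum]
    have h7 : (Nat.card {y : Perm (Fin n) // F ≤ 2 * (S1 y Z T).card} : ℝ) * (F : ℝ) ^ f =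
        ∑ y : Perm (Fin n), if F ≤ 2 * (S1 y Z T).card then (F : ℝ) ^ f else 0 := by
      rw [← sum_filter, sum_const, nsmul_eq_mul, Nat.card_eq_fintype_card, Fintype.card_subtype]
    rw [h7]
    refine sum_le_sum fun y _ => ?_
    split_ifs with h
    · exact h1 y h
    · positivity
  -- the bound on each term
  have hb : ∀ ps : Fin f → Fin n,
      (Nat.card {y : Perm (Fin n) // (∀ i, pos y Z T (ps i) = ps i) ∧
        (∀ i j, i ≠ j → Apart y Z T (ps i) (ps j)) ∧ ∀ i, Once y Z T (ps i)} : ℝ) * (n : ℝ) ^ f ≤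
      (4 * q : ℝ) ^ f * n.factorial := by
    intro ps
    have h2 := H1 Z T f ps hfT
    have h3 : n ≤ 2 * (n - f * T) := by
      have : f * T = 2 * (f * q) := by rw [hT]; ring
      omega
    have h4 : (n : ℝ) ^ f ≤ 2 ^ f * (((n - f * T : ℕ) : ℝ)) ^ f := by
      rw [← mul_pow]
      refine pow_le_pow_left₀ (Nat.cast_nonneg _) ?_ f
      exact_mod_cast h3
    set c := Nat.card {y : Perm (Fin n) // (∀ i, pos y Z T (ps i) = ps i) ∧
        (∀ i j, i ≠ j → Apart y Z T (ps i) (ps j)) ∧ ∀ i, Once y Z T (ps i)} with hc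
    have h5 : (c : ℝ) * (((n - f * T : ℕ) : ℝ)) ^ f ≤ (T : ℝ) ^ f * n.factorial := by
      exact_mod_cast h2
    calc (c : ℝ) * (n : ℝ) ^ f ≤ c * (2 ^ f * (((n - f * T : ℕ) : ℝ)) ^ f) :=
          mul_le_mul_of_nonneg_left h4 (Nat.cast_nonneg _)
      _ = 2 ^ f * (c * (((n - f * T : ℕ) : ℝ)) ^ f) := by ring
      _ ≤ 2 ^ f * ((T : ℝ) ^ f * n.factorial) := mul_le_mul_of_nonneg_left h5 (by positivity)
      _ = (4 * q : ℝ) ^ f * n.factorial := by
        rw [hT]
        push_cast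
        rw [← mul_assoc, ← mul_pow]
        ring
  have hsum : (∑ ps : Fin f → Fin n,
      (Nat.card {y : Perm (Fin n) // (∀ i, pos y Z T (ps i) = ps i) ∧
        (∀ i j, i ≠ j → Apart y Z T (ps i) (ps j)) ∧ ∀ i, Once y Z T (ps i)} : ℝ)) ≤
      (4 * q : ℝ) ^ f * n.factorial := by
    have hnf : (0 : ℝ) < (n : ℝ) ^ f := by positivity
    have h8 : (∑ ps : Fin f → Fin n,
      (Nat.card {y : Perm (Fin n) // (∀ i, pos y Z T (ps i) = ps i) ∧
        (∀ i j, i ≠ j → Apart y Z T (ps i) (ps j)) ∧ ∀ i, Once y Z T (ps i)} : ℝ)) * (n : ℝ) ^ f ≤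
        ((4 * q : ℝ) ^ f * n.factorial) * (n : ℝ) ^ f := by
      rw [sum_mul]
      calc _ ≤ ∑ _ps : Fin f → Fin n, (4 * q : ℝ) ^ f * n.factorial := sum_le_sum fun ps _ => hb ps
        _ = _ := by
          rw [sum_const, card_univ, nsmul_eq_mul, Fintype.card_fun, Fintype.card_fin,
            Fintype.card_fin]
          push_cast
          ring
    exact le_of_mul_le_mul_right h8 hnf
  have hFf : (0 : ℝ) < (F : ℝ) ^ f := by
    have : (0 : ℝ) < F := by exact_mod_cast hF
    positivity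
  have h9 : (Nat.card {y : Perm (Fin n) // F ≤ 2 * (S1 y Z T).card} : ℝ) * (F : ℝ) ^ f ≤
      (n.factorial : ℝ) * (16 * q / F : ℝ) ^ f * (F : ℝ) ^ f := by
    refine hdc.trans ?_
    calc _ ≤ (4 : ℝ) ^ f * ((4 * q : ℝ) ^ f * n.factorial) :=
          mul_le_mul_of_nonneg_left hsum (by positivity)
      _ = (n.factorial : ℝ) * (16 * q / F : ℝ) ^ f * (F : ℝ) ^ f := by
        have hF' : (F : ℝ) ≠ 0 := by
          have : (0 : ℝ) < F := by exact_mod_cast hF
          exact this.ne'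
        rw [mul_assoc (n.factorial : ℝ), ← mul_pow, div_mul_cancel₀ _ hF', ← mul_assoc, ← mul_pow]
        ring
  exact le_of_mul_le_mul_right h9 hFf

/-- second part: for fixed `y` the letters rarely produce many points of the second kind -/
theorem part2 {m q F : ℕ} {κ : Perm (Fin n) → ℝ} (hκ : ∀ g, 0 ≤ κ g) (C : ℝ) (hC : 0 ≤ C)
    (y : Perm (Fin n)) (hF : 0 < F) (hmF : 4 * m ≤ F)
    (H2 : ∀ ps : Fin m ↪ Fin n,
      ∑ Z : Fin (2 * q) → Perm (Fin n), (∏ t, κ (Z t)) *
        (open Classical in if ∀ i, ¬ Once y (ext Z) (2 * q) (ps i) then (1 : ℝ) else 0) ≤ C) :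
    ∑ Z : Fin (2 * q) → Perm (Fin n), (∏ t, κ (Z t)) *
        (open Classical in if F ≤ 2 * (S2 y (ext Z) (2 * q)).card then (1 : ℝ) else 0) ≤
      (4 * n / F : ℝ) ^ m * C := by
  classical
  have hFm : (0 : ℝ) < (F : ℝ) ^ m := by
    have : (0 : ℝ) < F := by exact_mod_cast hF
    positivity
  have h1 : ∀ Z : Fin (2 * q) → Perm (Fin n),
      (F : ℝ) ^ m * (if F ≤ 2 * (S2 y (ext Z) (2 * q)).card then (1 : ℝ) else 0) ≤
      4 ^ m * ∑ ps : Fin m ↪ Fin n,
        (if ∀ i, ¬ Once y (ext Z) (2 * q) (ps i) then (1 : ℝ) else 0) := by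
    intro Z
    split_ifs with h
    · rw [mul_one]
      have h2 := card_emb_le (S2 y (ext Z) (2 * q)) m
      have h3 : (∑ ps : Fin m ↪ Fin n,
          (if ∀ i, ¬ Once y (ext Z) (2 * q) (ps i) then (1 : ℝ) else 0)) =
          (Nat.card {ps : Fin m ↪ Fin n // ∀ i, ps i ∈ S2 y (ext Z) (2 * q)} : ℝ) := by
        rw [Nat.card_eq_fintype_card, Fintype.card_subtype, card_filter, Nat.cast_sum]
        refine sum_congr rfl fun ps _ => ?_
        have : (∀ i, ¬ Once y (ext Z) (2 * q) (ps i)) ↔ ∀ i, ps i ∈ S2 y (ext Z) (2 * q) := by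
          unfold S2
          simp
        simp only [this]
        split_ifs <;> simp
      rw [h3]
      have h4 : F ≤ 4 * ((S2 y (ext Z) (2 * q)).card + 1 - m) := by omega
      have h5 : (F : ℝ) ≤ 4 * (((S2 y (ext Z) (2 * q)).card + 1 - m : ℕ) : ℝ) := by
        exact_mod_cast h4
      calc (F : ℝ) ^ m ≤ (4 * (((S2 y (ext Z) (2 * q)).card + 1 - m : ℕ) : ℝ)) ^ m :=
            pow_le_pow_left₀ (Nat.cast_nonneg _) h5 m
        _ = 4 ^ m * (((S2 y (ext Z) (2 * q)).card + 1 - m : ℕ) : ℝ) ^ m := mul_pow _ _ _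
        _ ≤ _ := by
          refine mul_le_mul_of_nonneg_left ?_ (by positivity)
          exact_mod_cast h2
    · rw [mul_zero]
      refine mul_nonneg (by positivity) (sum_nonneg fun ps _ => ?_)
      split_ifs <;> norm_num
  have h2 : (F : ℝ) ^ m * ∑ Z : Fin (2 * q) → Perm (Fin n), (∏ t, κ (Z t)) *
        (if F ≤ 2 * (S2 y (ext Z) (2 * q)).card then (1 : ℝ) else 0) ≤
      4 ^ m * ∑ ps : Fin m ↪ Fin n, ∑ Z : Fin (2 * q) → Perm (Fin n), (∏ t, κ (Z t)) *
        (if ∀ i, ¬ Once y (ext Z) (2 * q) (ps i) then (1 : ℝ) else 0) := by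
    rw [sum_comm, mul_sum, mul_sum]
    refine sum_le_sum fun Z _ => ?_
    have hw : 0 ≤ ∏ t, κ (Z t) := prod_nonneg fun t _ => hκ _
    calc (F : ℝ) ^ m * ((∏ t, κ (Z t)) *
          (if F ≤ 2 * (S2 y (ext Z) (2 * q)).card then (1 : ℝ) else 0)) =
          (∏ t, κ (Z t)) * ((F : ℝ) ^ m *
          (if F ≤ 2 * (S2 y (ext Z) (2 * q)).card then (1 : ℝ) else 0)) := by ring
      _ ≤ (∏ t, κ (Z t)) * (4 ^ m * ∑ ps : Fin m ↪ Fin n,
          (if ∀ i, ¬ Once y (ext Z) (2 * q) (ps i) then (1 : ℝ) else 0)) :=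
          mul_le_mul_of_nonneg_left (h1 Z) hw
      _ = _ := by
        rw [← mul_sum]
        ring
  have h3 : ∑ ps : Fin m ↪ Fin n, ∑ Z : Fin (2 * q) → Perm (Fin n), (∏ t, κ (Z t)) *
        (if ∀ i, ¬ Once y (ext Z) (2 * q) (ps i) then (1 : ℝ) else 0) ≤ (n : ℝ) ^ m * C := by
    calc _ ≤ ∑ _ps : Fin m ↪ Fin n, C := sum_le_sum fun ps _ => H2 ps
      _ = ((n.descFactorial m : ℕ) : ℝ) * C := by
        rw [sum_const, card_univ, nsmul_eq_mul, Fintype.card_embedding_eq, Fintype.card_fin,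
          Fintype.card_fin]
      _ ≤ (n : ℝ) ^ m * C := by
        refine mul_le_mul_of_nonneg_right ?_ hC
        exact_mod_cast Nat.descFactorial_le_pow n m
  have h4 : (F : ℝ) ^ m * ∑ Z : Fin (2 * q) → Perm (Fin n), (∏ t, κ (Z t)) *
        (if F ≤ 2 * (S2 y (ext Z) (2 * q)).card then (1 : ℝ) else 0) ≤
      (F : ℝ) ^ m * ((4 * n / F : ℝ) ^ m * C) := by
    refine h2.trans ?_
    calc _ ≤ (4 : ℝ) ^ m * ((n : ℝ) ^ m * C) := mul_le_mul_of_nonneg_left h3 (by positivity)
      _ = (F : ℝ) ^ m * ((4 * n / F : ℝ) ^ m * C) := by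
        have hF' : (F : ℝ) ≠ 0 := by
          have : (0 : ℝ) < F := by exact_mod_cast hF
          exact this.ne'
        rw [← mul_assoc, ← mul_assoc, ← mul_pow, ← mul_pow, mul_div_cancel₀ _ hF']
  exact le_of_mul_le_mul_left h4 hFm

/-- Packet W3, with the statements W1 and W2 as hypotheses. -/
theorem star
    (h1 : ∀ {n : ℕ} (Z : ℕ → Perm (Fin n)) (T f : ℕ) (ps : Fin f → Fin n), f * T ≤ n →
      Nat.card {y : Perm (Fin n) // (∀ i, pos y Z T (ps i) = ps i) ∧
        (∀ i j, i ≠ j → Apart y Z T (ps i) (ps j)) ∧ ∀ i, Once y Z T (ps i)} *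
        (n - f * T) ^ f ≤ T ^ f * n.factorial)
    (h2 : ∀ {n m q : ℕ} {κ : Perm (Fin n) → ℝ}, Wise κ m → 2 * m ≤ n → 4 * q ≤ n →
      ∀ (y : Perm (Fin n)) (ps : Fin m ↪ Fin n),
      ∑ Z : Fin (2 * q) → Perm (Fin n), (∏ t, κ (Z t)) *
        (open Classical in if ∀ i, ¬ Once y (ext Z) (2 * q) (ps i) then (1 : ℝ) else 0) ≤
      2 ^ (2 * q) * 2 ^ (2 * q * m) * (4 * q / n : ℝ) ^ (m * q))
    {n m q f F : ℕ} {κ : Perm (Fin n) → ℝ} (hκ : Wise κ m) (hm : 2 * m ≤ n)
    (hq : 4 * q ≤ n) (hF : 0 < F) (hmF : 4 * m ≤ F) (hfF : 16 * (f * q ^ 2) ≤ F)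
    (hfn : 4 * (f * q) ≤ n) :
    ∑ y : Perm (Fin n), ∑ Z : Fin (2 * q) → Perm (Fin n), (∏ t, κ (Z t)) *
        (if F ≤ Pool.Agent.Helper15.An.fixc (pos y (ext Z) (2 * q)) then (1 : ℝ) else 0) ≤
      (n.factorial : ℝ) * ((16 * q / F : ℝ) ^ f + (4 * n / F : ℝ) ^ m *
          (2 ^ (2 * q) * 2 ^ (2 * q * m) * (4 * q / n : ℝ) ^ (m * q))) := by
  classical
  rcases Nat.eq_zero_or_pos n with hn | hn
  · have hz : ∀ (y : Perm (Fin n)) (Z : Fin (2 * q) → Perm (Fin n)),
        ¬ F ≤ Pool.Agent.Helper15.An.fixc (pos y (ext Z) (2 * q)) := by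
      intro y Z h
      have : Pool.Agent.Helper15.An.fixc (pos y (ext Z) (2 * q)) ≤ n := by
        unfold Pool.Agent.Helper15.An.fixc
        exact (card_le_univ _).trans (by simp)
      omega
    have : ∑ y : Perm (Fin n), ∑ Z : Fin (2 * q) → Perm (Fin n), (∏ t, κ (Z t)) *
        (if F ≤ Pool.Agent.Helper15.An.fixc (pos y (ext Z) (2 * q)) then (1 : ℝ) else 0) = 0 := by
      refine sum_eq_zero fun y _ => sum_eq_zero fun Z _ => ?_
      rw [if_neg (hz y Z), mul_zero]
    rw [this]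
    positivity
  set C : ℝ := 2 ^ (2 * q) * 2 ^ (2 * q * m) * (4 * q / n : ℝ) ^ (m * q) with hC
  have hC0 : 0 ≤ C := by rw [hC]; positivity
  have hw : ∀ Z : Fin (2 * q) → Perm (Fin n), 0 ≤ ∏ t, κ (Z t) :=
    fun Z => prod_nonneg fun t _ => hκ.nonneg _
  -- pointwise
  have hpt : ∀ (y : Perm (Fin n)) (Z : Fin (2 * q) → Perm (Fin n)), (∏ t, κ (Z t)) *
        (if F ≤ Pool.Agent.Helper15.An.fixc (pos y (ext Z) (2 * q)) then (1 : ℝ) else 0) ≤
      (∏ t, κ (Z t)) * (if F ≤ 2 * (S1 y (ext Z) (2 * q)).card then (1 : ℝ) else 0) +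
      (∏ t, κ (Z t)) * (if F ≤ 2 * (S2 y (ext Z) (2 * q)).card then (1 : ℝ) else 0) := by
    intro y Z
    rw [← mul_add]
    refine mul_le_mul_of_nonneg_left ?_ (hw Z)
    have h3 := fixc_le y (ext Z) (2 * q)
    by_cases h : F ≤ Pool.Agent.Helper15.An.fixc (pos y (ext Z) (2 * q))
    · rw [if_pos h]
      by_cases h4 : F ≤ 2 * (S1 y (ext Z) (2 * q)).card
      · rw [if_pos h4]
        split_ifs <;> norm_num
      · have h5 : F ≤ 2 * (S2 y (ext Z) (2 * q)).card := by omega
        rw [if_neg h4, if_pos h5]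
        norm_num
    · rw [if_neg h]
      split_ifs <;> norm_num
  have hA : ∑ y : Perm (Fin n), ∑ Z : Fin (2 * q) → Perm (Fin n), (∏ t, κ (Z t)) *
      (if F ≤ 2 * (S1 y (ext Z) (2 * q)).card then (1 : ℝ) else 0) ≤
      (n.factorial : ℝ) * (16 * q / F : ℝ) ^ f := by
    rw [sum_comm]
    calc _ = ∑ Z : Fin (2 * q) → Perm (Fin n), (∏ t, κ (Z t)) *
          (Nat.card {y : Perm (Fin n) // F ≤ 2 * (S1 y (ext Z) (2 * q)).card} : ℝ) := by
          refine sum_congr rfl fun Z _ => ?_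
          rw [← mul_sum, Nat.card_eq_fintype_card, Fintype.card_subtype, card_filter,
            Nat.cast_sum]
          congr 1
          refine sum_congr rfl fun y _ => ?_
          split_ifs <;> simp
      _ ≤ ∑ Z : Fin (2 * q) → Perm (Fin n), (∏ t, κ (Z t)) *
          ((n.factorial : ℝ) * (16 * q / F : ℝ) ^ f) := by
          refine sum_le_sum fun Z _ => mul_le_mul_of_nonneg_left ?_ (hw Z)
          exact part1 h1 (ext Z) q f F hn hF hfF hfn
      _ = _ := by rw [← sum_mul, sum_w hκ.sum, one_mul]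
  have hB : ∑ y : Perm (Fin n), ∑ Z : Fin (2 * q) → Perm (Fin n), (∏ t, κ (Z t)) *
      (if F ≤ 2 * (S2 y (ext Z) (2 * q)).card then (1 : ℝ) else 0) ≤
      (n.factorial : ℝ) * ((4 * n / F : ℝ) ^ m * C) := by
    calc _ ≤ ∑ _y : Perm (Fin n), (4 * n / F : ℝ) ^ m * C := by
          refine sum_le_sum fun y _ => ?_
          exact part2 hκ.nonneg C hC0 y hF hmF (fun ps => h2 hκ hm hq y ps)
      _ = _ := by
        rw [sum_const, card_univ, nsmul_eq_mul, Fintype.card_perm, Fintype.card_fin]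
  calc _ ≤ ∑ y : Perm (Fin n), ∑ Z : Fin (2 * q) → Perm (Fin n),
        ((∏ t, κ (Z t)) * (if F ≤ 2 * (S1 y (ext Z) (2 * q)).card then (1 : ℝ) else 0) +
        (∏ t, κ (Z t)) * (if F ≤ 2 * (S2 y (ext Z) (2 * q)).card then (1 : ℝ) else 0)) :=
        sum_le_sum fun y _ => sum_le_sum fun Z _ => hpt y Z
    _ = ∑ y : Perm (Fin n), ∑ Z : Fin (2 * q) → Perm (Fin n), (∏ t, κ (Z t)) *
        (if F ≤ 2 * (S1 y (ext Z) (2 * q)).card then (1 : ℝ) else 0) +
        ∑ y : Perm (Fin n), ∑ Z : Fin (2 * q) → Perm (Fin n), (∏ t, κ (Z t)) *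
        (if F ≤ 2 * (S2 y (ext Z) (2 * q)).card then (1 : ℝ) else 0) := by
        rw [← sum_add_distrib]
        refine sum_congr rfl fun y _ => ?_
        rw [← sum_add_distrib]
    _ ≤ (n.factorial : ℝ) * (16 * q / F : ℝ) ^ f +
        (n.factorial : ℝ) * ((4 * n / F : ℝ) ^ m * C) := add_le_add hA hB
    _ = _ := by ring

end Pool.Agent.Helper38.W
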